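import Pool.Agent.Mob.Stmts

/-!
# WEG: Wegner estimate, linear in the volume
-/

set_option autoImplicit false
set_option linter.unusedSectionVars false

open MeasureTheory ProbabilityTheory Function

open scoped ENNReal BigOperators InnerProductSpace

noncomputable section

namespace Pool.Agent.Mob.H31

open Pool.Agent.Anderson Pool.Agent.Loc Pool.Agent.Helper54.Bal Pool.Agent.Mob

variable {d : ℕ}

/-! ### the scalar integral -/

theorem lorentz {ν : Measure ℝ} [IsProbabilityMeasure ν] {ρ : ℝ} (hν : BddDens ν ρ) (a b : ℝ)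
    (hb : 0 < b) :
    ∫⁻ v, ENNReal.ofReal (b / ((v - a) ^ 2 + b ^ 2)) ∂ν ≤ ENNReal.ofReal (4 * ρ) := by
  have hρ := hν.1
  have hpos : ∀ v : ℝ, 0 < (v - a) ^ 2 + b ^ 2 := fun v => by positivity
  have hmeas : Measurable fun v : ℝ => b / ((v - a) ^ 2 + b ^ 2) := by fun_prop
  rw [lintegral_eq_lintegral_meas_lt ν
    (Filter.Eventually.of_forall fun v => (div_pos hb (hpos v)).le) hmeas.aemeasurable]
  have h1 : ∀ t ∈ Set.Ioi (0 : ℝ), ν {v | t < b / ((v - a) ^ 2 + b ^ 2)} ≤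
      (Set.Ioc 0 (1 / b)).indicator
        (fun t => ENNReal.ofReal (2 * ρ * √b * t ^ (-(1 / 2) : ℝ))) t := by
    intro t ht
    have ht0 : (0 : ℝ) < t := ht
    have hsub : ∀ v, t < b / ((v - a) ^ 2 + b ^ 2) → (v - a) ^ 2 + b ^ 2 < b / t := by
      intro v hv
      rw [lt_div_iff₀ (hpos v)] at hv
      rw [lt_div_iff₀ ht0]
      linarith
    by_cases htb : t ≤ 1 / b
    · have hmem : t ∈ Set.Ioc (0 : ℝ) (1 / b) := ⟨ht0, htb⟩
      rw [Set.indicator_of_mem hmem]
      have hs : {v | t < b / ((v - a) ^ 2 + b ^ 2)} ⊆ Set.Icc (a - √(b / t)) (a + √(b / t)) := by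
        intro v hv
        have h2 := hsub v hv
        have h3 : (v - a) ^ 2 ≤ b / t := by nlinarith [sq_nonneg b]
        have h4 : |v - a| ≤ √(b / t) := by
          rw [← Real.sqrt_sq_eq_abs]
          exact Real.sqrt_le_sqrt h3
        have h5 := abs_le.1 h4
        constructor <;> linarith [h5.1, h5.2]
      refine (measure_mono hs).trans ((hν.2 _ _).trans (le_of_eq ?_))
      congr 1
      have h6 : √(b / t) = √b * t ^ (-(1 / 2) : ℝ) := by
        rw [Real.sqrt_div hb.le, Real.rpow_neg ht0.le, ← Real.sqrt_eq_rpow]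
        rfl
      rw [h6]
      ring
    · have hs : {v | t < b / ((v - a) ^ 2 + b ^ 2)} = ∅ := by
        ext v
        simp only [Set.mem_ofPred_eq, Set.mem_empty_iff_false, iff_false]
        intro hv
        have h2 := hsub v hv
        push Not at htb
        have h3 : b / t < b ^ 2 := by
          rw [div_lt_iff₀ ht0]
          rw [div_lt_iff₀ hb] at htb
          nlinarith
        nlinarith [sq_nonneg (v - a)]
      rw [hs, measure_empty]
      exact zero_le
  have hmg : Measurable (fun t : ℝ => (Set.Ioc 0 (1 / b)).indicator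
        (fun t => ENNReal.ofReal (2 * ρ * √b * t ^ (-(1 / 2) : ℝ))) t) := by
    apply Measurable.indicator _ measurableSet_Ioc
    fun_prop
  refine (setLIntegral_mono hmg h1).trans ?_
  rw [lintegral_indicator measurableSet_Ioc, Measure.restrict_restrict measurableSet_Ioc]
  have hinter : Set.Ioc (0 : ℝ) (1 / b) ∩ Set.Ioi 0 = Set.Ioc 0 (1 / b) := by
    ext t
    simp only [Set.mem_inter_iff, Set.mem_Ioc, Set.mem_Ioi]
    tauto
  rw [hinter]
  have hint : IntegrableOn (fun t : ℝ => 2 * ρ * √b * t ^ (-(1 / 2) : ℝ)) (Set.Ioc 0 (1 / b)) := by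
    apply Integrable.const_mul
    have h2 := (intervalIntegral.intervalIntegrable_rpow' (a := 0) (b := 1 / b)
      (r := (-(1 / 2) : ℝ)) (by norm_num)).1
    exact h2
  rw [← ofReal_integral_eq_lintegral_ofReal hint]
  · apply ENNReal.ofReal_le_ofReal
    rw [← intervalIntegral.integral_of_le (by positivity), intervalIntegral.integral_const_mul,
      integral_rpow (Or.inl (by norm_num))]
    have e1 : (-(1 / 2) + 1 : ℝ) = 1 / 2 := by norm_num
    rw [e1, Real.zero_rpow (by norm_num), sub_zero, ← Real.sqrt_eq_rpow]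
    have e2 : √b * √(1 / b) = 1 := by
      rw [← Real.sqrt_mul hb.le, mul_one_div_cancel hb.ne', Real.sqrt_one]
    apply le_of_eq
    calc 2 * ρ * √b * (√(1 / b) / (1 / 2)) = 4 * ρ * (√b * √(1 / b)) := by ring
      _ = 4 * ρ := by rw [e2, mul_one]
  · filter_upwards [ae_restrict_mem measurableSet_Ioc] with t ht
    have := ht.1
    positivity

/-! ### linear algebra -/

section lin

variable {n : Type} [Fintype n] [DecidableEq n]

/-- imaginary part of the diagonal of the resolvent of a Hermitian matrix -/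
theorem im_diag {A H : Matrix n n ℂ} (hH : H.IsHermitian) (z : ℂ) (hA : A = z • 1 - H)
    (hdet : A.det ≠ 0) (x : n) :
    (A⁻¹ x x).im = -z.im * ∑ y, ‖A⁻¹ x y‖ ^ 2 := by
  have hu : IsUnit A.det := isUnit_iff_ne_zero.2 hdet
  have h1 : A⁻¹ * A = 1 := Matrix.nonsing_inv_mul _ hu
  have h2 : A.conjTranspose = star z • 1 - H := by
    rw [hA, Matrix.conjTranspose_sub, Matrix.conjTranspose_smul, Matrix.conjTranspose_one, hH.eq]
  have h3 : A.conjTranspose * (A⁻¹).conjTranspose = 1 := by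
    rw [← Matrix.conjTranspose_mul, h1, Matrix.conjTranspose_one]
  have h4 : A⁻¹ - (A⁻¹).conjTranspose = (star z - z) • (A⁻¹ * (A⁻¹).conjTranspose) := by
    have h5 : A.conjTranspose - A = (star z - z) • (1 : Matrix n n ℂ) := by
      rw [h2, hA, sub_smul]
      abel
    calc A⁻¹ - (A⁻¹).conjTranspose
        = A⁻¹ * (A.conjTranspose * (A⁻¹).conjTranspose) - A⁻¹ * A * (A⁻¹).conjTranspose := by
          rw [h3, h1, mul_one, one_mul]
      _ = A⁻¹ * (A.conjTranspose - A) * (A⁻¹).conjTranspose := by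
          rw [mul_sub, sub_mul, ← mul_assoc]
      _ = _ := by
          rw [h5, Matrix.mul_smul, mul_one, Matrix.smul_mul]
  have h6 := congrFun (congrFun h4 x) x
  rw [Matrix.sub_apply, Matrix.conjTranspose_apply, Matrix.smul_apply, Matrix.mul_apply,
    smul_eq_mul] at h6
  have h7 : ∑ y, A⁻¹ x y * (A⁻¹).conjTranspose y x = ((∑ y, ‖A⁻¹ x y‖ ^ 2 : ℝ) : ℂ) := by
    push_cast
    apply Finset.sum_congr rfl
    intro y _
    rw [Matrix.conjTranspose_apply]
    exact Complex.mul_conj' _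
  rw [h7] at h6
  have h8 := congrArg Complex.im h6
  simp only [Complex.sub_im, Complex.mul_im, Complex.ofReal_im, Complex.ofReal_re, mul_zero,
    zero_add, Complex.star_def, Complex.conj_im] at h8
  linarith

/-- an eigenvector makes the resolvent large -/
theorem hs_large {A H : Matrix n n ℂ} (z : ℂ) (hA : A = z • 1 - H) (hdet : A.det ≠ 0)
    (F : ℂ) (u : n → ℂ) (hu : u ≠ 0) (hHu : H.mulVec u = F • u) :
    1 ≤ ‖z - F‖ ^ 2 * ∑ x, ∑ y, ‖A⁻¹ x y‖ ^ 2 := by
  have hun : IsUnit A.det := isUnit_iff_ne_zero.2 hdet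
  have h1 : A⁻¹ * A = 1 := Matrix.nonsing_inv_mul _ hun
  have h2 : A.mulVec u = (z - F) • u := by
    rw [hA, Matrix.sub_mulVec, Matrix.smul_mulVec, Matrix.one_mulVec, hHu, sub_smul]
  have h3 : u = (z - F) • (A⁻¹).mulVec u := by
    rw [← Matrix.mulVec_smul, ← h2, Matrix.mulVec_mulVec, h1, Matrix.one_mulVec]
  have hU : 0 < ∑ y, ‖u y‖ ^ 2 := by
    obtain ⟨y, hy⟩ := Function.ne_iff.1 hu
    have h4 : 0 < ‖u y‖ ^ 2 := by
      have : 0 < ‖u y‖ := norm_pos_iff.2 hy
      positivity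
    exact lt_of_lt_of_le h4
      (Finset.single_le_sum (f := fun y => ‖u y‖ ^ 2) (fun _ _ => by positivity)
        (Finset.mem_univ y))
  have h5 : ∀ x, ‖u x‖ ^ 2 ≤ ‖z - F‖ ^ 2 * ((∑ y, ‖A⁻¹ x y‖ ^ 2) * ∑ y, ‖u y‖ ^ 2) := by
    intro x
    have h6 : u x = (z - F) * ∑ y, A⁻¹ x y * u y := by
      conv_lhs => rw [h3]
      rfl
    have h7 : ‖∑ y, A⁻¹ x y * u y‖ ≤ ∑ y, ‖A⁻¹ x y‖ * ‖u y‖ := by
      refine (norm_sum_le _ _).trans (le_of_eq ?_)
      apply Finset.sum_congr rfl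
      intro y _
      rw [norm_mul]
    have h8 : (∑ y, ‖A⁻¹ x y‖ * ‖u y‖) ^ 2 ≤ (∑ y, ‖A⁻¹ x y‖ ^ 2) * ∑ y, ‖u y‖ ^ 2 :=
      Finset.sum_mul_sq_le_sq_mul_sq _ _ _
    calc ‖u x‖ ^ 2 = ‖z - F‖ ^ 2 * ‖∑ y, A⁻¹ x y * u y‖ ^ 2 := by
          conv_lhs => rw [h6, norm_mul, mul_pow]
      _ ≤ ‖z - F‖ ^ 2 * (∑ y, ‖A⁻¹ x y‖ * ‖u y‖) ^ 2 := by gcongr
      _ ≤ _ := by gcongr
  have h9 := Finset.sum_le_sum fun x (_ : x ∈ Finset.univ) => h5 x
  rw [← Finset.mul_sum, ← Finset.sum_mul, ← mul_assoc] at h9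
  by_contra hcon
  push Not at hcon
  have := mul_lt_mul_of_pos_right hcon hU
  linarith

end lin

/-! ### the finite volume resolvent -/

theorem gz_eq {V : Site d → ℝ} {Λ : Finset (Site d)} {z : ℂ} {x y : Site d} (hx : x ∈ Λ)
    (hy : y ∈ Λ) : gz V Λ z x y = (z • (1 : Matrix Λ Λ ℂ) - HC V Λ)⁻¹ ⟨x, hx⟩ ⟨y, hy⟩ := by
  unfold gz
  rw [dif_pos ⟨hx, hy⟩]

theorem continuous_HC (Λ : Finset (Site d)) (z : ℂ) :
    Continuous fun V : Site d → ℝ => (z • (1 : Matrix Λ Λ ℂ) - HC V Λ) := by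
  apply continuous_matrix
  intro x y
  simp only [HC, HM, Matrix.sub_apply, Matrix.smul_apply, Matrix.map_apply, Matrix.of_apply,
    smul_eq_mul]
  by_cases h : x = y
  · simp only [h, if_true]
    fun_prop
  · simp only [h, if_false]
    fun_prop

theorem measurable_gz (Λ : Finset (Site d)) (z : ℂ) (x y : Site d) :
    Measurable fun V : Site d → ℝ => gz V Λ z x y := by
  by_cases h : x ∈ Λ ∧ y ∈ Λ
  · have h1 : ∀ V : Site d → ℝ, gz V Λ z x y = ((z • (1 : Matrix Λ Λ ℂ) - HC V Λ).det)⁻¹ *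
        (z • (1 : Matrix Λ Λ ℂ) - HC V Λ).adjugate ⟨x, h.1⟩ ⟨y, h.2⟩ := by
      intro V
      rw [gz_eq h.1 h.2, Matrix.inv_def, Matrix.smul_apply, Ring.inverse_eq_inv', smul_eq_mul]
    simp_rw [h1]
    apply Measurable.mul
    · exact (continuous_HC Λ z).matrix_det.measurable.inv
    · exact ((continuous_HC Λ z).matrix_adjugate.matrix_elem _ _).measurable
  · have : (fun V : Site d → ℝ => gz V Λ z x y) = fun _ => 0 := by
      funext V
      unfold gz
      rw [dif_neg h]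
    rw [this]
    exact measurable_const

/-- the dependence on the value of the potential at `x` -/
theorem gz_rank_one {V : Site d → ℝ} {Λ : Finset (Site d)} {z : ℂ} {x : Site d} (hx : x ∈ Λ)
    (hdet : ∀ V : Site d → ℝ, (z • (1 : Matrix Λ Λ ℂ) - HC V Λ).det ≠ 0) (v : ℝ) :
    gz (update V x v) Λ z x x - gz (update V x 0) Λ z x x =
      gz (update V x v) Λ z x x * v * gz (update V x 0) Λ z x x := by
  set A := z • (1 : Matrix Λ Λ ℂ) - HC (update V x v) Λ with hA
  set B := z • (1 : Matrix Λ Λ ℂ) - HC (update V x 0) Λ with hB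
  have e1 : A⁻¹ * A = 1 := Matrix.nonsing_inv_mul _ (isUnit_iff_ne_zero.2 (hdet _))
  have e2 : B * B⁻¹ = 1 := Matrix.mul_nonsing_inv _ (isUnit_iff_ne_zero.2 (hdet _))
  have e3 : B - A = Matrix.diagonal fun a : Λ => if (a : Site d) = x then (v : ℂ) else 0 := by
    ext a b
    simp only [hA, hB, HC, HM, Matrix.sub_apply, Matrix.smul_apply, Matrix.map_apply,
      Matrix.of_apply, Matrix.diagonal_apply]
    by_cases hab : a = b
    · subst hab
      by_cases hax : (a : Site d) = x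
      · simp [hax]
      · simp [hax]
    · simp [hab]
  have e4 : A⁻¹ - B⁻¹ = A⁻¹ * (Matrix.diagonal fun a : Λ => if (a : Site d) = x then (v : ℂ)
      else 0) * B⁻¹ := by
    rw [← e3, mul_sub, sub_mul, e1, one_mul, mul_assoc, e2, mul_one]
  have e5 := congrFun (congrFun e4 ⟨x, hx⟩) ⟨x, hx⟩
  rw [Matrix.sub_apply, Matrix.mul_apply] at e5
  rw [gz_eq hx hx, gz_eq hx hx, ← hA, ← hB, e5, Finset.sum_eq_single (⟨x, hx⟩ : Λ)]
  · rw [Matrix.mul_diagonal, if_pos rfl]
  · intro b _ hb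
    have hbx : (b : Site d) ≠ x := fun h => hb (Subtype.ext h)
    rw [Matrix.mul_diagonal, if_neg hbx, mul_zero, zero_mul]
  · intro h
    exact absurd (Finset.mem_univ _) h

theorem gz_im_neg {V : Site d → ℝ} {Λ : Finset (Site d)} {z : ℂ} (hz : 0 < z.im) {x : Site d}
    (hx : x ∈ Λ) (hdet : (z • (1 : Matrix Λ Λ ℂ) - HC V Λ).det ≠ 0) :
    (gz V Λ z x x).im < 0 := by
  rw [gz_eq hx hx, im_diag (HC_herm V Λ) z rfl hdet]
  set A := z • (1 : Matrix Λ Λ ℂ) - HC V Λ with hA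
  have e1 : A⁻¹ * A = 1 := Matrix.nonsing_inv_mul _ (isUnit_iff_ne_zero.2 hdet)
  have hpos : 0 < ∑ y, ‖A⁻¹ ⟨x, hx⟩ y‖ ^ 2 := by
    by_contra hcon
    have h0 : ∑ y, ‖A⁻¹ ⟨x, hx⟩ y‖ ^ 2 = 0 :=
      le_antisymm (not_lt.1 hcon) (Finset.sum_nonneg fun _ _ => by positivity)
    have h1 : ∀ y, A⁻¹ ⟨x, hx⟩ y = 0 := by
      intro y
      have := (Finset.sum_eq_zero_iff_of_nonneg (fun _ _ => by positivity)).1 h0 y
        (Finset.mem_univ y)
      exact norm_eq_zero.1 (pow_eq_zero_iff (two_ne_zero) |>.1 this)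
    have h2 := congrFun (congrFun e1 ⟨x, hx⟩) ⟨x, hx⟩
    rw [Matrix.mul_apply, Matrix.one_apply_eq] at h2
    rw [Finset.sum_eq_zero (fun y _ => by rw [h1 y, zero_mul])] at h2
    exact zero_ne_one h2
  have : 0 < z.im * ∑ y, ‖A⁻¹ ⟨x, hx⟩ y‖ ^ 2 := mul_pos hz hpos
  linarith

theorem marg_gz {ν : Measure ℝ} [IsProbabilityMeasure ν] {ρ : ℝ} (hν : BddDens ν ρ)
    {Λ : Finset (Site d)} {z : ℂ} (hz : 0 < z.im) {x : Site d} (hx : x ∈ Λ)
    (hdet : ∀ V : Site d → ℝ, (z • (1 : Matrix Λ Λ ℂ) - HC V Λ).det ≠ 0) (V : Site d → ℝ) :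
    (∫⋯∫⁻_{x}, (fun V => ENNReal.ofReal (-(gz V Λ z x x).im)) ∂(fun _ => ν)) V ≤
      ENNReal.ofReal (4 * ρ) := by
  rw [lmarginal_singleton]
  set g := gz (update V x 0) Λ z x x with hg
  have hgi : g.im < 0 := gz_im_neg hz hx (hdet _)
  have hg0 : g ≠ 0 := by
    intro h
    rw [h, Complex.zero_im] at hgi
    exact lt_irrefl _ hgi
  have hb : 0 < (g⁻¹).im := by
    rw [Complex.inv_im]
    exact div_pos (by linarith) (Complex.normSq_pos.2 hg0)
  have key : ∀ v : ℝ, -(gz (update V x v) Λ z x x).im =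
      (g⁻¹).im / ((v - (g⁻¹).re) ^ 2 + (g⁻¹).im ^ 2) := by
    intro v
    have h1 := gz_rank_one (V := V) hx hdet v
    rw [← hg] at h1
    set t := gz (update V x v) Λ z x x with ht
    have h2 : t * (g⁻¹ - v) = 1 := by
      have h3 : t * (1 - v * g) = g := by linear_combination h1
      have h4 : t * (g⁻¹ - v) = t * (1 - v * g) * g⁻¹ := by
        field_simp
      rw [h4, h3, mul_inv_cancel₀ hg0]
    have h5 : t = (g⁻¹ - v)⁻¹ := eq_inv_of_mul_eq_one_left h2
    rw [h5, Complex.inv_im, Complex.normSq_apply]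
    simp only [Complex.sub_im, Complex.sub_re, Complex.ofReal_im, Complex.ofReal_re, sub_zero]
    rw [neg_div, neg_neg]
    congr 1
    ring
  simp_rw [key]
  exact lorentz hν _ _ hb

/-- the failure of `NoEig` is seen by the trace of the resolvent -/
theorem trace_large {V : Site d → ℝ} {Λ : Finset (Site d)} {E r : ℝ} (hr : 0 < r)
    (hdet : ((E + r * Complex.I : ℂ) • (1 : Matrix Λ Λ ℂ) - HC V Λ).det ≠ 0)
    (h : ¬ NoEig V Λ E r) :
    1 ≤ 2 * r * ∑ x ∈ Λ, -(gz V Λ (E + r * Complex.I) x x).im := by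
  unfold NoEig at h
  push Not at h
  obtain ⟨F, hF, hF0⟩ := h
  obtain ⟨u, hu, hu0⟩ := Matrix.exists_mulVec_eq_zero_iff.2 hF0
  set z : ℂ := E + r * Complex.I with hz
  have hzim : z.im = r := by simp [hz]
  have hzre : z.re = E := by simp [hz]
  set uc : Λ → ℂ := fun i => (u i : ℂ) with huc
  have huc0 : uc ≠ 0 := by
    intro h
    apply hu
    funext i
    have := congrFun h i
    simpa [huc] using this
  have hH : (HC V Λ).mulVec uc = (F : ℂ) • uc := by
    funext i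
    have h1 := congrFun hu0 i
    simp only [RM, Matrix.sub_mulVec, Matrix.smul_mulVec, Matrix.one_mulVec, Pi.sub_apply,
      Pi.smul_apply, smul_eq_mul, Pi.zero_apply] at h1
    have h2 : (HM V Λ).mulVec u i = F * u i := by linarith
    simp only [Matrix.mulVec, dotProduct, HC, Matrix.map_apply, huc, Pi.smul_apply, smul_eq_mul]
    simp only [Matrix.mulVec, dotProduct] at h2
    rw [← Complex.ofReal_mul, ← h2]
    push_cast
    rfl
  have h1 := hs_large z rfl hdet F uc huc0 hH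
  have h2 : ∑ x ∈ Λ, -(gz V Λ z x x).im =
      r * ∑ x : Λ, ∑ y : Λ, ‖(z • (1 : Matrix Λ Λ ℂ) - HC V Λ)⁻¹ x y‖ ^ 2 := by
    rw [← Finset.sum_coe_sort Λ, Finset.mul_sum]
    apply Finset.sum_congr rfl
    intro x _
    rw [gz_eq x.2 x.2, im_diag (HC_herm V Λ) z rfl hdet, hzim]
    ring
  have h3 : ‖z - F‖ ^ 2 ≤ 2 * r ^ 2 := by
    rw [← Complex.normSq_eq_norm_sq, Complex.normSq_apply]
    simp only [Complex.sub_re, Complex.sub_im, Complex.ofReal_re, Complex.ofReal_im, hzim, hzre]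
    have h4 := abs_le.1 hF
    nlinarith [h4.1, h4.2]
  rw [h2]
  have h5 : 0 ≤ ∑ x : Λ, ∑ y : Λ, ‖(z • (1 : Matrix Λ Λ ℂ) - HC V Λ)⁻¹ x y‖ ^ 2 :=
    Finset.sum_nonneg fun _ _ => Finset.sum_nonneg fun _ _ => by positivity
  calc (1 : ℝ) ≤ _ := h1
    _ ≤ 2 * r ^ 2 * ∑ x : Λ, ∑ y : Λ, ‖(z • (1 : Matrix Λ Λ ℂ) - HC V Λ)⁻¹ x y‖ ^ 2 :=
        mul_le_mul_of_nonneg_right h3 h5
    _ = _ := by ring

theorem measurableSet_noEig (Λ : Finset (Site d)) (E r : ℝ) :
    MeasurableSet {V : Site d → ℝ | NoEig V Λ E r} := by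
  have h : {V : Site d → ℝ | NoEig V Λ E r}ᶜ = Prod.fst ''
      {q : (Site d → ℝ) × (Set.Icc (E - r) (E + r)) | (RM q.1 Λ (q.2 : ℝ)).det = 0} := by
    ext V
    simp only [Set.mem_compl_iff, Set.mem_ofPred_eq, Set.mem_image, NoEig]
    push Not
    constructor
    · rintro ⟨F, hF, hF0⟩
      have := abs_le.1 hF
      exact ⟨(V, ⟨F, by linarith [this.1], by linarith [this.2]⟩), hF0, rfl⟩
    · rintro ⟨q, hq, rfl⟩
      refine ⟨q.2, ?_, hq⟩
      rw [abs_le]
      constructor <;> linarith [q.2.2.1, q.2.2.2]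
  rw [← MeasurableSet.compl_iff, h]
  refine IsClosed.measurableSet (isClosedMap_fst_of_compactSpace _ ?_)
  have hc : Continuous fun q : (Site d → ℝ) × (Set.Icc (E - r) (E + r)) =>
      (RM q.1 Λ (q.2 : ℝ)).det := by
    apply Continuous.matrix_det
    apply continuous_matrix
    intro x y
    simp only [RM, HM, Matrix.sub_apply, Matrix.smul_apply, Matrix.of_apply, smul_eq_mul]
    by_cases h : x = y
    · simp only [h, if_true]
      fun_prop
    · simp only [h, if_false]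
      fun_prop
  exact isClosed_singleton.preimage hc

theorem weg (hG : GzbStmt) : WegStmt := by
  intro d ν _ ρ hν Λ E r hr
  have hρ := hν.1
  refine ⟨measurableSet_noEig Λ E r, ?_⟩
  set z : ℂ := E + r * Complex.I with hz
  have hzim : z.im = r := by simp [hz]
  have hdet : ∀ V : Site d → ℝ, (z • (1 : Matrix Λ Λ ℂ) - HC V Λ).det ≠ 0 := fun V =>
    ((hG d V Λ 0 0).2.1 z (by rw [hzim]; exact hr.ne')).1
  have hS : MeasurableSet {V : Site d → ℝ | ¬ NoEig V Λ E r} := (measurableSet_noEig Λ E r).compl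
  have hm : ∀ x, Measurable fun V : Site d → ℝ => ENNReal.ofReal (-(gz V Λ z x x).im) := fun x =>
    ENNReal.measurable_ofReal.comp (Complex.measurable_im.comp (measurable_gz Λ z x x)).neg
  calc PL ν Λ {V | ¬ NoEig V Λ E r}
      = ∫⁻ V, {V : Site d → ℝ | ¬ NoEig V Λ E r}.indicator 1 V ∂(PL ν Λ) :=
        (lintegral_indicator_one hS).symm
    _ ≤ ∫⁻ V, ENNReal.ofReal (2 * r) *
          ∑ x ∈ Λ, ENNReal.ofReal (-(gz V Λ z x x).im) ∂(PL ν Λ) := by
        apply lintegral_mono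
        intro V
        by_cases hV : V ∈ {V : Site d → ℝ | ¬ NoEig V Λ E r}
        · rw [Set.indicator_of_mem hV]
          have h1 := trace_large hr (hdet V) hV
          show (1 : ℝ≥0∞) ≤ ENNReal.ofReal (2 * r) *
            ∑ x ∈ Λ, ENNReal.ofReal (-(gz V Λ z x x).im)
          rw [← ENNReal.ofReal_sum_of_nonneg (fun x hx =>
            (neg_pos.2 (gz_im_neg (by rw [hzim]; exact hr) hx (hdet V))).le),
            ← ENNReal.ofReal_mul (by positivity)]
          exact ENNReal.one_le_ofReal.2 h1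
        · rw [Set.indicator_of_notMem hV]
          exact zero_le
    _ = ENNReal.ofReal (2 * r) *
          ∑ x ∈ Λ, ∫⁻ V, ENNReal.ofReal (-(gz V Λ z x x).im) ∂(PL ν Λ) := by
        rw [lintegral_const_mul _ (Finset.measurable_sum _ fun x _ => hm x),
          lintegral_finset_sum _ fun x _ => hm x]
    _ ≤ ENNReal.ofReal (2 * r) * ∑ x ∈ Λ, ENNReal.ofReal (4 * ρ) := by
        gcongr with x hx
        exact PL_le_of_marg (S := {x}) (by simpa using hx) (hm x)
          (fun V => marg_gz hν (by rw [hzim]; exact hr) hx hdet V)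
    _ = ENNReal.ofReal (2 * r * (Λ.card * (4 * ρ))) := by
        rw [Finset.sum_const, nsmul_eq_mul, ← ENNReal.ofReal_natCast,
          ← ENNReal.ofReal_mul (by positivity), ← ENNReal.ofReal_mul (by positivity)]
    _ ≤ ENNReal.ofReal (64 * ρ * Λ.card * r) := by
        apply ENNReal.ofReal_le_ofReal
        have : 0 ≤ ρ * Λ.card * r := by positivity
        nlinarith

end Pool.Agent.Mob.H31
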